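import Pool.Agent.MP_d9582c_gt.H34.Stmts2

/-!
Comparison of traces through blocks; the left regular representation.
-/

open scoped InnerProductSpace ENNReal Topology
open Set Filter ContinuousLinearMap

noncomputable section

namespace Pool.Agent.MP_d9582c_gt.H14

open Pool.Agent.MP_d9582c_gt.H34

universe u v

section Cmp

variable {H K ι : Type*} [NormedAddCommGroup H] [InnerProductSpace ℂ H] [CompleteSpace H]
  [NormedAddCommGroup K] [InnerProductSpace ℂ K] [CompleteSpace K]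

omit [CompleteSpace K] in
lemma frame_triv (e : HilbertBasis ι ℂ K) : IsFrame (1 : URep Unit K) e := fun u => by
  simp only [tsum_fintype, Finset.univ_unique, Finset.sum_singleton, MonoidHom.one_apply,
    LinearIsometryEquiv.coe_one, id]
  exact HilbertBasis.tsum_enorm_sq e u

lemma hs_comp_right (e : HilbertBasis ι ℂ K) (Y : K →L[ℂ] H) (Z : K →L[ℂ] K) :
    hs e (Y ∘L Z) ≤ ‖Z‖ₑ ^ 2 * hs e Y := by
  obtain ⟨s, w, -⟩ := exists_hilbertBasis ℂ H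
  have hZ : Equi (1 : URep Unit K) 1 Z := fun _ _ => rfl
  have hY : Equi (1 : URep Unit K) (1 : URep Unit H) Y := fun _ _ => rfl
  have := hs_le_adjoint ((frame_triv e).isBessel.map hZ) (frame_triv w) hY
  rwa [one_mul, ← hs_adjoint (frame_triv e) (frame_triv w) hY] at this

lemma two_mul_le (c x y : ℝ≥0∞) : 2 * c * (x * y) ≤ x ^ 2 + c ^ 2 * y ^ 2 := by
  rcases eq_or_ne (x ^ 2 + c ^ 2 * y ^ 2) ⊤ with h | h
  · simp [h]
  rcases eq_or_ne c 0 with rfl | hc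
  · simp
  rcases eq_or_ne y 0 with rfl | hy
  · simp
  obtain ⟨h1, h2⟩ := ENNReal.add_ne_top.mp h
  have hx : x ≠ ⊤ := by rintro rfl; simp at h1
  have hc' : c ≠ ⊤ := by rintro rfl; simp [hy] at h2
  have hy' : y ≠ ⊤ := by rintro rfl; simp [hc] at h2
  lift x to NNReal using hx
  lift y to NNReal using hy'
  lift c to NNReal using hc'
  norm_cast
  rw [← NNReal.coe_le_coe]
  push_cast
  nlinarith [sq_nonneg ((x : ℝ) - c * y)]

/-- `a` is a product of two Hilbert-Schmidt operators with squared norms at most `T` -/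
def Fac (H : Type*) [NormedAddCommGroup H] [InnerProductSpace ℂ H] [CompleteSpace H]
    (e : HilbertBasis ι ℂ K) (T : ℝ≥0∞) (a : K →L[ℂ] K) : Prop :=
  ∃ Y W : K →L[ℂ] H, hs e Y ≤ T ∧ hs e W ≤ T ∧ a = adjoint Y ∘L W

lemma Fac.bound {e : HilbertBasis ι ℂ K} {T : ℝ≥0∞} {a : K →L[ℂ] K} (h : Fac H e T a)
    (Z : K →L[ℂ] K) : ∑' k, ‖⟪Z (e k), a (e k)⟫_ℂ‖ₑ ≤ ‖Z‖ₑ * T := by
  obtain ⟨Y, W, hY, hW, rfl⟩ := h
  rcases eq_or_ne Z 0 with rfl | hZ
  · simp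
  have hZ0 : 2 * ‖Z‖ₑ ≠ 0 := by simpa using hZ
  have hZt : 2 * ‖Z‖ₑ ≠ ⊤ := ENNReal.mul_ne_top (by simp) enorm_ne_top
  rw [← ENNReal.mul_le_mul_iff_right hZ0 hZt, ← ENNReal.tsum_mul_left]
  calc ∑' k, 2 * ‖Z‖ₑ * ‖⟪Z (e k), (adjoint Y ∘L W) (e k)⟫_ℂ‖ₑ
      ≤ ∑' k, (‖(Y ∘L Z) (e k)‖ₑ ^ 2 + ‖Z‖ₑ ^ 2 * ‖W (e k)‖ₑ ^ 2) := by
        refine ENNReal.tsum_le_tsum fun k => le_trans ?_ (two_mul_le _ _ _)
        gcongr
        rw [comp_apply, adjoint_inner_right, ← ofReal_norm, ← ofReal_norm, ← ofReal_norm,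
          ← ENNReal.ofReal_mul (norm_nonneg _)]
        exact ENNReal.ofReal_le_ofReal (norm_inner_le_norm _ _)
    _ = hs e (Y ∘L Z) + ‖Z‖ₑ ^ 2 * hs e W := by
        rw [ENNReal.tsum_add, ENNReal.tsum_mul_left]; rfl
    _ ≤ ‖Z‖ₑ ^ 2 * T + ‖Z‖ₑ ^ 2 * T := by
        gcongr
        exact (hs_comp_right e Y Z).trans (by gcongr)
    _ = 2 * ‖Z‖ₑ * (‖Z‖ₑ * T) := by ring

lemma Fac.hs_le {e : HilbertBasis ι ℂ K} {T : ℝ≥0∞} {a : K →L[ℂ] K} (h : Fac H e T a) :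
    hs e a ≤ ‖a‖ₑ * T := by
  refine le_trans (le_of_eq (tsum_congr fun k => ?_)) (h.bound a)
  rw [enorm_sq_eq, ← ofReal_norm, inner_self_eq_norm_sq_to_K, norm_pow]
  simp

omit [CompleteSpace K] in
lemma enorm_sq_le_add (x y : K) :
    ‖x‖ₑ ^ 2 ≤ ‖y‖ₑ ^ 2 + (‖⟪x - y, x⟫_ℂ‖ₑ + ‖⟪x - y, y⟫_ℂ‖ₑ) := by
  rw [enorm_sq_eq, enorm_sq_eq, ← ofReal_norm, ← ofReal_norm,
    ← ENNReal.ofReal_add (norm_nonneg _) (norm_nonneg _),
    ← ENNReal.ofReal_add (by positivity) (by positivity)]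
  refine ENNReal.ofReal_le_ofReal ?_
  have h1 := RCLike.re_le_norm ⟪x - y, x⟫_ℂ
  have h2 := RCLike.re_le_norm ⟪x - y, y⟫_ℂ
  rw [inner_sub_left, map_sub, inner_self_eq_norm_sq, ← inner_sub_left] at h1 h2
  rw [inner_re_symm] at h2
  linarith

lemma Fac.hs_le_add {H' : Type*} [NormedAddCommGroup H'] [InnerProductSpace ℂ H']
    [CompleteSpace H'] {e : HilbertBasis ι ℂ K} {T : ℝ≥0∞} {a b : K →L[ℂ] K} (ha : Fac H e T a)
    (hb : Fac H' e T b) : hs e a ≤ hs e b + 2 * (‖a - b‖ₑ * T) := by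
  refine (ENNReal.tsum_le_tsum fun k => enorm_sq_le_add (a (e k)) (b (e k))).trans ?_
  rw [ENNReal.tsum_add, ENNReal.tsum_add, two_mul]
  exact add_le_add le_rfl (add_le_add (ha.bound (a - b)) (hb.bound (a - b)))

variable {Q : Type*} [Group Q] {U : URep Q H} {Φ : H →L[ℂ] K} {h : H →L[ℂ] H}
  {e : HilbertBasis ι ℂ K} {T : ℝ≥0∞}

lemma fac_block (hsa : IsSelfAdjoint h) (hE : Equi U U h)
    (hT : hs (fun k => adjoint Φ (e k)) h ≤ T) (q : Q) : Fac H e T (block U Φ h q) := by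
  refine ⟨(U q).toContinuousLinearEquiv.toContinuousLinearMap ∘L h ∘L adjoint Φ,
    h ∘L adjoint Φ, le_trans (le_of_eq (tsum_congr fun k => ?_)) hT, hT, ?_⟩
  · exact congrArg (· ^ 2) (LinearIsometryEquiv.enorm_map (U q) _)
  · ext x
    refine ext_inner_left ℂ fun w => ?_
    rw [comp_apply, adjoint_inner_right]
    change ⟪w, Φ (U q⁻¹ (h (h (adjoint Φ x))))⟫_ℂ = ⟪U q (h (adjoint Φ w)), h (adjoint Φ x)⟫_ℂ
    rw [← adjoint_inner_left, inner_rep, ← hE q⁻¹ (h (adjoint Φ x)), ← adjoint_inner_left h,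
      hsa.adjoint_eq]

lemma hs_eq_blocks (hP : ∀ x, ∑' q, ‖Φ (U q⁻¹ x)‖ₑ ^ 2 = ‖x‖ₑ ^ 2) :
    hs (fun k => adjoint Φ (e k)) (h ∘L h) = ∑' q, hs e (block U Φ h q) := by
  unfold hs
  simp only [← hP]
  rw [ENNReal.tsum_comm]
  rfl

omit [CompleteSpace H] in
lemma hs_sq_le (v : ι → H) (h1 : ‖h‖ ≤ 1) : hs v (h ∘L h) ≤ hs v h := by
  have := hs_le_of_forall v (X := h ∘L h) (Y := h) (c := 1) fun u => by
    rw [one_mul]
    refine pow_le_pow_left₀ (norm_nonneg _) ((h.le_opNorm _).trans ?_) 2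
    exact mul_le_of_le_one_left (norm_nonneg _) h1
  simpa using this

omit [CompleteSpace K] in
lemma one_side {Q₁ Q₂ σ : Type*} (a : Q₁ → K →L[ℂ] K) (b : Q₂ → K →L[ℂ] K)
    (s : Finset σ) (π₁ : σ → Q₁) (π₂ : σ → Q₂) (ε : ℝ)
    (h1 : ∀ q, hs e (a q) ≤ ‖a q‖ₑ * T)
    (h2 : ∀ q q', hs e (a q) ≤ hs e (b q') + 2 * (‖a q - b q'‖ₑ * T))
    (i1 : InjOn π₁ s) (i2 : InjOn π₂ s) (hs1 : ∑ γ ∈ s, ‖a (π₁ γ) - b (π₂ γ)‖ ≤ ε)
    (hc : ∑' q : ↥(π₁ '' s)ᶜ, ‖a q‖ₑ ≤ ENNReal.ofReal ε) :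
    ∑' q, hs e (a q) ≤ ∑' q, hs e (b q) + 3 * (ENNReal.ofReal ε * T) := by
  classical
  rw [← ENNReal.sum_add_tsum_compl (s.image π₁), Finset.sum_image i1, Finset.coe_image]
  have e1 : ∑ γ ∈ s, ‖a (π₁ γ) - b (π₂ γ)‖ₑ ≤ ENNReal.ofReal ε := by
    simp only [← ofReal_norm]
    rw [← ENNReal.ofReal_sum_of_nonneg fun _ _ => norm_nonneg _]
    exact ENNReal.ofReal_le_ofReal hs1
  have e2 : ∑ γ ∈ s, hs e (b (π₂ γ)) ≤ ∑' q, hs e (b q) := by
    rw [← Finset.sum_image (f := fun q => hs e (b q)) i2]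
    exact ENNReal.sum_le_tsum _
  calc _ ≤ ∑ γ ∈ s, (hs e (b (π₂ γ)) + 2 * (‖a (π₁ γ) - b (π₂ γ)‖ₑ * T)) +
        ∑' q : ↥(π₁ '' s)ᶜ, ‖a q‖ₑ * T :=
        add_le_add (Finset.sum_le_sum fun γ _ => h2 _ _) (ENNReal.tsum_le_tsum fun q => h1 _)
    _ ≤ (∑' q, hs e (b q) + 2 * (ENNReal.ofReal ε * T)) + ENNReal.ofReal ε * T := by
        rw [Finset.sum_add_distrib, ← Finset.mul_sum, ← Finset.sum_mul, ENNReal.tsum_mul_right]
        gcongr
    _ = _ := by ring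

end Cmp

theorem cmp : CmpStmt.{u, v} := by
  intro Q₁ Q₂ σ _ _ H₁ H₂ K ι _ _ _ _ _ _ _ _ _ U₁ U₂ Φ₁ Φ₂ e h₁ h₂ s π₁ π₂ T ε hT hε hP₁ hP₂
    hs₁ hs₂ hE₁ hE₂ hn₁ hn₂ hT₁ hT₂ i₁ i₂ hd hc₁ hc₂
  have f₁ := fac_block hs₁ hE₁ hT₁
  have f₂ := fac_block hs₂ hE₂ hT₂
  have t₁ := ne_top_of_le_ne_top ENNReal.ofReal_ne_top ((hs_sq_le _ hn₁).trans hT₁)
  have t₂ := ne_top_of_le_ne_top ENNReal.ofReal_ne_top ((hs_sq_le _ hn₂).trans hT₂)
  have a₁ := one_side (block U₁ Φ₁ h₁) (block U₂ Φ₂ h₂) s π₁ π₂ ε (fun q => (f₁ q).hs_le)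
    (fun q q' => (f₁ q).hs_le_add (f₂ q')) i₁ i₂ hd hc₁
  have a₂ := one_side (block U₂ Φ₂ h₂) (block U₁ Φ₁ h₁) s π₂ π₁ ε (fun q => (f₂ q).hs_le)
    (fun q q' => (f₂ q).hs_le_add (f₁ q')) i₂ i₁ (by simpa only [norm_sub_rev] using hd) hc₂
  rw [← hs_eq_blocks hP₁, ← hs_eq_blocks hP₂] at a₁ a₂
  have ht : 3 * (ENNReal.ofReal ε * ENNReal.ofReal T) ≠ ⊤ := by finiteness
  have hr : (3 * (ENNReal.ofReal ε * ENNReal.ofReal T)).toReal = 3 * (ε * T) := by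
    simp [hT, hε]
  have b₁ := ENNReal.toReal_mono (ENNReal.add_ne_top.mpr ⟨t₂, ht⟩) a₁
  have b₂ := ENNReal.toReal_mono (ENNReal.add_ne_top.mpr ⟨t₁, ht⟩) a₂
  rw [ENNReal.toReal_add (by assumption) ht, hr] at b₁ b₂
  have := mul_nonneg hε hT
  rw [abs_le]
  constructor <;> linarith

section L2

lemma l2_enorm_sq {Q : Type*} (u : L2 Q) : ∑' q, ‖u q‖ₑ ^ 2 = ‖u‖ₑ ^ 2 := by
  have h := lp.hasSum_norm (p := 2) (by simp) u
  simp only [ENNReal.toReal_ofNat, Real.rpow_ofNat] at h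
  simp only [enorm_sq_eq]
  rw [← ENNReal.ofReal_tsum_of_nonneg (fun _ => sq_nonneg _) h.summable, h.tsum_eq]

lemma compEquiv_apply {Q : Type*} (e : Q ≃ Q) (u : L2 Q) (y : Q) : compEquiv e u y = u (e y) := rfl

/-- composition with a permutation as a unitary -/
def compIso {Q : Type*} (e : Q ≃ Q) : L2 Q ≃ₗᵢ[ℂ] L2 Q where
  toFun := compEquiv e
  invFun := compEquiv e.symm
  map_add' := map_add _
  map_smul' := map_smul _
  left_inv u := by ext y; simp [compEquiv_apply]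
  right_inv u := by ext y; simp [compEquiv_apply]
  norm_map' u := by
    rw [lp.norm_eq_tsum_rpow (by simp), lp.norm_eq_tsum_rpow (by simp) u,
      ← e.tsum_eq fun y => ‖u y‖ ^ (2 : ℝ≥0∞).toReal]
    rfl

lemma inner_compEquiv {Q : Type*} (e : Q ≃ Q) (u w : L2 Q) :
    ⟪compEquiv e u, w⟫_ℂ = ⟪u, compEquiv e.symm w⟫_ℂ :=
  (compIso e).inner_map_eq_flip u w

variable {Q : Type*} [Group Q]

/-- the left regular representation -/
def leftRep (Q : Type*) [Group Q] (r : ℕ) : URep Q (L2r Q r) where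
  toFun q := LinearIsometryEquiv.piLpCongrRight 2 fun _ => compIso (Equiv.mulLeft q⁻¹)
  map_one' := by
    ext u i y
    exact congrArg (u i) (by simp)
  map_mul' q q' := by
    ext u i y
    exact congrArg (u i) (by simp)

lemma leftRep_apply {r : ℕ} (q : Q) (u : L2r Q r) (i : Fin r) (y : Q) :
    leftRep Q r q u i y = u i (q⁻¹ * y) := rfl

lemma rmul_apply (a : MonoidAlgebra ℚ Q) (u : L2 Q) (y : Q) :
    rmul a u y = a.coeff.sum fun x c => (c : ℂ) * u (y * x⁻¹) := by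
  simp only [rmul, Finsupp.sum, _root_.sum_apply, lp.coeFn_sum, Finset.sum_apply]
  rfl

lemma rmulMat_apply {r s : ℕ} (A : Matrix (Fin r) (Fin s) (MonoidAlgebra ℚ Q)) (u : L2r Q r)
    (j : Fin s) : rmulMat A u j = ∑ i, rmul (A i j) (u i) := by
  simp [rmulMat]

lemma rmul_mapDomain {G : Type*} (f : G → Q) (a : MonoidAlgebra ℚ G) :
    rmul (MonoidAlgebra.mapDomain f a) =
      a.coeff.sum fun x c => (c : ℂ) • compEquiv (Equiv.mulRight (f x)⁻¹) :=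
  Finsupp.sum_mapDomain_index (by simp) (by simp [add_smul])

lemma inner_rmul {G : Type*} [Group G] (f : G →* Q) (a : MonoidAlgebra ℚ G) (u w : L2 Q) :
    ⟪rmul (MonoidAlgebra.mapDomain f (MonoidAlgebra.mapDomain (fun x => x⁻¹) a)) u, w⟫_ℂ =
      ⟪u, rmul (MonoidAlgebra.mapDomain f a) w⟫_ℂ := by
  have e1 : MonoidAlgebra.mapDomain f (MonoidAlgebra.mapDomain (fun x => x⁻¹) a) =
      MonoidAlgebra.mapDomain (fun x => (f x)⁻¹) a := by
    simp only [MonoidAlgebra.mapDomain, ← Finsupp.mapDomain_comp]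
    congr 2
    ext x
    simp
  rw [e1, rmul_mapDomain, rmul_mapDomain]
  simp only [Finsupp.sum, _root_.sum_apply, _root_.smul_apply,
    sum_inner, inner_sum, inner_smul_left, inner_smul_right, map_ratCast, inner_compEquiv,
    Equiv.mulRight_symm, inv_inv]

end L2

theorem l2 : L2Stmt.{v} := by
  refine ⟨fun Q _ r => ⟨leftRep Q r, leftRep_apply, fun u => ?_, fun A q u => ?_⟩,
    fun G _ r A => ⟨fun N _ u j y => ?_, ?_⟩⟩
  · classical
    have e1 : ∀ j q, ⟪leftRep Q r q (stdVec Q r j), u⟫_ℂ = u j q := by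
      intro j q
      rw [inner_rep, PiLp.inner_apply, Finset.sum_eq_single j]
      · simp only [stdVec, PiLp.single_eq_same]
        rw [lp.inner_single_left, leftRep_apply]
        simp
      · intro i _ hi
        simp [stdVec, hi]
      · simp
    simp only [e1, l2_enorm_sq, tsum_fintype]
    simp only [enorm_sq_eq]
    rw [PiLp.norm_sq_eq_of_L2, ENNReal.ofReal_sum_of_nonneg fun _ _ => sq_nonneg _]
  · ext j y
    simp only [rmulMat_apply, leftRep_apply, lp.coeFn_sum, Finset.sum_apply, rmul_apply,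
      mul_assoc]
  · rw [rmulMat_apply, lp.coeFn_sum, Finset.sum_apply]
    refine Finset.sum_congr rfl fun i _ => ?_
    rw [rmul_apply]
    exact Finsupp.sum_mapDomain_index (by simp) (by simp [add_mul])
  · refine ⟨fun j i => MonoidAlgebra.mapDomain (fun x => x⁻¹) (A i j), fun N _ => ?_⟩
    rw [eq_adjoint_iff]
    intro u w
    simp only [PiLp.inner_apply, rmulMat_apply, sum_inner, inner_sum]
    rw [Finset.sum_comm]
    exact Finset.sum_congr rfl fun i _ => Finset.sum_congr rfl fun j _ =>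
      inner_rmul (QuotientGroup.mk' N) (A j i) (u i) (w j)

end Pool.Agent.MP_d9582c_gt.H14
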